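import Pool.Agent.H88.LH.Defs

/-!
# [H35 SN DEFS] MP_b39724_nt, theorem LSN, block (S): definitions

* `HIG R`: `R` a commutative normal subgroup of `G`: there is an endomorphism `θ` of `R` with `∏ a θ a⁻¹ = id`, the product over the group of automorphisms of `R` induced by `G`
  (Higman's criterion: `R`, killed by `l`, is a projective module of the group of automorphisms induced by `G`; for example when `l` does not divide the order of this group).
* `STEP l π`: `π : G → Gb` is surjective with a section, its kernel is a minimal normal subgroup of exponent `l`, commutative, with `HIG`.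
* `STP`: the step theorem over a number field `K` with a primitive `l`-th root of unity (helper51): a surjective `φ : Γ → H`, `V` an irreducible `H`-module killed by `l` with Higman's criterion: there is a cocycle
  `κ : Γ → V` of finite level with `κ(ker φ) = V`, trivial on the decomposition groups at `S''`, a coboundary on the inertia groups at `v ∤ l`, `v ∉ S'`.
-/

set_option autoImplicit false

open scoped NumberField
open IsDedekindDomain H38.ML
open scoped Classical IsMulCommutative

noncomputable section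

namespace H35.SN

open H63.MA H88.LH

/-- Higman's criterion -/
def HIG {G : Type} [Group G] (R : Subgroup G) [R.Normal] [IsMulCommutative R] : Prop :=
  ∃ θ : R →* R, ∀ x : R, ∏ᶠ a : (MulAut.conjNormal : G →* MulAut R).range,
    (a : MulAut R) (θ ((a : MulAut R)⁻¹ x)) = x

/-- one step -/
structure STEP (l : ℕ) {G Gb : Type} [Group G] [Group Gb] (π : G →* Gb) : Prop where
  prime : l.Prime
  sur : Function.Surjective π
  ne : π.ker ≠ ⊥
  com : IsMulCommutative π.ker
  exp : ∀ x ∈ π.ker, x ^ l = 1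
  irr : ∀ U : Subgroup G, U.Normal → U ≤ π.ker → U = ⊥ ∨ U = π.ker
  sec : ∃ s : Gb →* G, ∀ x, π (s x) = x
  hig : HIG π.ker

/-- the step theorem -/
def STP : Prop :=
  ∀ (K : IntermediateField ℚ QBar) [NumberField K] (l : ℕ) (_ : l.Prime)
    (_ : ∃ z : K, IsPrimitiveRoot z l) (H : Type) [Group H] [Finite H]
    (V : Type) [CommGroup V] [Finite V] (_ : ∀ x : V, x ^ l = 1) (_ : Nontrivial V)
    (act : H →* MulAut V)
    (_ : ∀ U : Subgroup V, (∀ h, ∀ u ∈ U, act h u ∈ U) → U = ⊥ ∨ U = ⊤)
    (_ : ∃ θ : V →* V, ∀ x, ∏ᶠ a : act.range, (a : MulAut V) (θ ((a : MulAut V)⁻¹ x)) = x)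
    (φ : Gal(QBar/K) →* H) (_ : Function.Surjective φ) (_ : FT φ) (Q : DP K QBar)
    (S' S'' : Finset (Pl K)) (_ : Disjoint S' S'')
    (_ : ∀ v ∈ S' ∪ S'', ∀ σ ∈ dec (K := K) (Q.P v), φ σ = 1)
    (_ : ∀ v ∈ S' ∪ S'', ¬ Above l v) (_ : l * (Nat.card H * (S''.card + 1)) < S'.card),
    ∃ κ : Gal(QBar/K) → V, (∀ σ τ, κ (σ * τ) = κ σ * act (φ σ) (κ τ)) ∧
      (∃ E : IntermediateField K QBar, FiniteDimensional K E ∧ ∀ σ ∈ E.fixingSubgroup, κ σ = 1) ∧
      (∀ x : V, ∃ σ, φ σ = 1 ∧ κ σ = x) ∧
      (∀ v ∈ S'', ∀ σ ∈ dec (K := K) (Q.P v), κ σ = 1) ∧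
      ∀ v, v ∉ S' → ¬ Above l v → ∃ x : V, ∀ τ ∈ (Q.P v).inertia Gal(QBar/K),
        κ τ = x / act (φ τ) x

end H35.SN
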