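import Mathlib

/-!
# [H35 SN COB] MP_b39724_nt, theorem LSN: coboundaries

`A` a finite group of automorphisms of the abelian group `V` (multiplicative), `θ : V → V` with `∏ a θ a⁻¹ = id` (Higman's criterion for `V` projective).
* `cob`: every cocycle `f` of a group `I` which acts through `A`, trivial on the kernel of the action, is a coboundary.
* `cobc`: every cocycle of a finite group of order prime to the exponent is a coboundary.
-/

set_option autoImplicit false

open scoped Classical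

noncomputable section

namespace H35.SN

/-- Higman: cocycles are coboundaries -/
theorem cob {V : Type} [CommGroup V] (A : Subgroup (MulAut V)) [Finite A] (θ : V →* V)
    (hθ : ∀ x, ∏ᶠ a : A, (a : MulAut V) (θ ((a : MulAut V)⁻¹ x)) = x) {I : Type} [Group I]
    (β : I →* MulAut V) (hβ : ∀ i, β i ∈ A) (f : I → V)
    (hf : ∀ i j, f (i * j) = f i * β i (f j)) (h0 : ∀ i, β i = 1 → f i = 1) :
    ∃ x, ∀ i, f i = x / β i x := by
  cases nonempty_fintype A
  have hθ' : ∀ x, ∏ a : A, (a : MulAut V) (θ ((a : MulAut V)⁻¹ x)) = x := by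
    intro x
    rw [← finprod_eq_prod_of_fintype]
    exact hθ x
  -- `f` depends on `β` only
  have hdep : ∀ i j, β i = β j → f i = f j := by
    intro i j hij
    have h1 : f (j * (j⁻¹ * i)) = f j * β j (f (j⁻¹ * i)) := hf _ _
    rw [mul_inv_cancel_left, h0 (j⁻¹ * i) (by rw [map_mul, map_inv, hij, inv_mul_cancel]), map_one,
      mul_one] at h1
    exact h1
  -- representatives of the right cosets
  obtain ⟨J, hJ⟩ : ∃ J : Subgroup A, J = β.range.subgroupOf A := ⟨_, rfl⟩
  have hmJ : ∀ a : A, a ∈ J ↔ ∃ i, β i = a := by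
    intro a
    rw [hJ, Subgroup.mem_subgroupOf]
    exact MonoidHom.mem_range
  obtain ⟨r, hr1, hr2⟩ : ∃ r : A → A, (∀ a, a * (r a)⁻¹ ∈ J) ∧ ∀ (j : A) (a : A), j ∈ J →
      r (j * a) = r a := by
    refine ⟨fun a => Quotient.out (s := QuotientGroup.rightRel J) (Quotient.mk _ a), fun a => ?_,
      fun j a hj => ?_⟩
    · have h1 := Quotient.mk_out (s := QuotientGroup.rightRel J) a
      have h2 : (QuotientGroup.rightRel J) (Quotient.out (Quotient.mk _ a)) a := h1
      rw [QuotientGroup.rightRel_apply] at h2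
      exact h2
    · have h1 : (Quotient.mk (QuotientGroup.rightRel J) (j * a)) = Quotient.mk _ a := by
        refine Quotient.sound ?_
        have h2 : (QuotientGroup.rightRel J) (j * a) a := by
          rw [QuotientGroup.rightRel_apply, mul_inv_rev, mul_inv_cancel_left]
          exact J.inv_mem hj
        exact h2
      show Quotient.out (Quotient.mk (QuotientGroup.rightRel J) (j * a)) = _
      rw [h1]
  have hch : ∀ a : A, ∃ i, β i = ((a * (r a)⁻¹ : A) : MulAut V) := fun a => (hmJ _).1 (hr1 a)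
  choose j hj using hch
  obtain ⟨β', hβ'⟩ : ∃ β' : I → A, ∀ i, (β' i : MulAut V) = β i := ⟨fun i => ⟨β i, hβ i⟩, fun i => rfl⟩
  have hjm : ∀ i a, f (j (β' i * a)) = f i * β i (f (j a)) := by
    intro i a
    rw [← hf]
    refine hdep _ _ ?_
    rw [hj, map_mul, hj, hr2 (β' i) a ((hmJ _).2 ⟨i, (hβ' i).symm⟩), mul_assoc]
    rw [Subgroup.coe_mul, hβ']
  refine ⟨∏ a : A, (a : MulAut V) (θ ((a : MulAut V)⁻¹ (f (j a)))), fun i => ?_⟩
  have h1 : β i (∏ a : A, (a : MulAut V) (θ ((a : MulAut V)⁻¹ (f (j a))))) =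
      (∏ a : A, (a : MulAut V) (θ ((a : MulAut V)⁻¹ (f (j a))))) / f i := by
    have h2 : (∏ a : A, (a : MulAut V) (θ ((a : MulAut V)⁻¹ (f (j a))))) / f i =
        ∏ b : A, (b : MulAut V) (θ ((b : MulAut V)⁻¹ (f (j b) / f i))) := by
      conv_lhs => rw [← hθ' (f i)]
      rw [← Finset.prod_div_distrib]
      refine Finset.prod_congr rfl fun b _ => ?_
      rw [map_div, map_div, map_div]
    rw [h2, map_prod, ← Equiv.prod_comp (Equiv.mulLeft (β' i))
      (fun b : A => (b : MulAut V) (θ ((b : MulAut V)⁻¹ (f (j b) / f i))))]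
    refine Finset.prod_congr rfl fun a _ => ?_
    simp only [Equiv.coe_mulLeft]
    rw [hjm, mul_div_cancel_left, Subgroup.coe_mul, hβ', mul_inv_rev]
    show β i ((a : MulAut V) _) = β i ((a : MulAut V) (θ (((a : MulAut V)⁻¹) ((β i)⁻¹ (β i _)))))
    have h3 : (β i)⁻¹ (β i (f (j a))) = f (j a) := (β i).symm_apply_apply _
    rw [h3]
  rw [h1, div_div_cancel]

/-- finite groups of order prime to the exponent -/
theorem cobc {V : Type} [CommGroup V] {l : ℕ} (hl : ∀ x : V, x ^ l = 1) {I : Type} [Group I]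
    [Finite I] (hco : l.Coprime (Nat.card I)) (β : I →* MulAut V) (f : I → V)
    (hf : ∀ i j, f (i * j) = f i * β i (f j)) : ∃ x, ∀ i, f i = x / β i x := by
  cases nonempty_fintype I
  obtain ⟨u, hu⟩ : ∃ u : ℤ, ∀ x : V, (x ^ Nat.card I) ^ u = x := by
    refine ⟨Nat.gcdB l (Nat.card I), fun x => ?_⟩
    have h1 := Nat.gcd_eq_gcd_ab l (Nat.card I)
    rw [Nat.Coprime.gcd_eq_one hco] at h1
    have h2 : x = x ^ ((1 : ℕ) : ℤ) := by simp
    conv_rhs => rw [h2, h1, zpow_add, zpow_mul, zpow_natCast, hl, one_zpow, one_mul, zpow_mul,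
      zpow_natCast]
  refine ⟨(∏ j : I, f j) ^ u, fun i => ?_⟩
  have h1 : β i (∏ j : I, f j) = (∏ j : I, f j) / f i ^ Nat.card I := by
    rw [map_prod]
    have h2 : ∀ j, β i (f j) = f (i * j) / f i := fun j => by rw [hf, mul_div_cancel_left]
    rw [Finset.prod_congr rfl fun j _ => h2 j, Finset.prod_div_distrib,
      ← Equiv.prod_comp (Equiv.mulLeft i) f, Finset.prod_const, Finset.card_univ,
      Nat.card_eq_fintype_card]
    rfl
  rw [map_zpow, h1, div_zpow, hu, div_div_cancel]

end H35.SN
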