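import Pool.Agent.H35.SN.Fs
import Pool.Agent.H38.BG.AKn

/-!
# [H35 SN BS] MP_b39724_nt, theorem LSN: one step over `K` (`base_step`)

`π : G → Gb` with `STEP l π`, `C` a set of elements of order `1` or `p` closed under conjugation, `Cb` its image: `BASE Cb N` implies `BASE C N`.
-/

set_option autoImplicit false

open scoped NumberField
open IsDedekindDomain H38.ML
open scoped Classical IsMulCommutative

noncomputable section

namespace H35.SN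

open H63.MA H88.LH H77.PC3

/-- products of commuting elements and homomorphisms -/
theorem pk_map {G Gb : Type} [Group G] [Group Gb] {C : Set G} {Cb : Set Gb} {f : Gb →* G}
    (hf : ∀ y ∈ Cb, f y ∈ C) {k : ℕ} {x : Gb} (h : Pk Cb k x) : Pk C k (f x) := by
  obtain ⟨l, h1, h2, h3, h4⟩ := h
  refine ⟨l.map f, by rwa [List.length_map], ?_, ?_, ?_⟩
  · intro y hy
    obtain ⟨a, ha, rfl⟩ := List.mem_map.1 hy
    exact hf a (h2 a ha)
  · intro y hy z hz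
    obtain ⟨a, ha, rfl⟩ := List.mem_map.1 hy
    obtain ⟨b, hb, rfl⟩ := List.mem_map.1 hz
    rw [← map_mul, ← map_mul, h3 a ha b hb]
  · rw [← h4, map_list_prod]

theorem base_lift {p l N : ℕ} (hl0 : 0 < l) {G Gb : Type} [Group G] [Finite G]
    [Group Gb] {π : G →* Gb} (S : LFT l π) (hsur : Function.Surjective π) (C : Set G)
    (Cb : Set Gb) (hCb : Cb = π '' C) (hCp : ∀ x ∈ C, x ^ p = 1)
    (hcc : ∀ x ∈ C, ∀ g : G, g * x * g⁻¹ ∈ C) (hC : ∀ y : G, y ^ p = 1 → π y ∈ Cb → y ∈ C)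
    (h : BASE Cb N) : BASE C N := by
  have hfb : Finite Gb := Finite.of_surjective π hsur
  have : NeZero l := ⟨hl0.ne'⟩
  have hCbp : ∀ y ∈ Cb, y ^ p = 1 := by
    intro y hy
    rw [hCb] at hy
    obtain ⟨x, hx, rfl⟩ := hy
    rw [← map_pow, hCp x hx, map_one]
  obtain ⟨K₁, hK₁, h⟩ := h
  obtain ⟨K₂, hK₂, h2⟩ := H38.BG.akn (Multiplicative (ZMod l))
  have hK₁' : FiniteDimensional ℚ K₁ := hK₁.to_finiteDimensional
  have hK₂' : FiniteDimensional ℚ K₂ := hK₂.to_finiteDimensional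
  have hfd' : FiniteDimensional ℚ ↥(K₁ ⊔ K₂) := IntermediateField.finiteDimensional_sup K₁ K₂
  refine ⟨K₁ ⊔ K₂, NumberField.of_module_finite ℚ _, fun K hK hle s S₁ => ?_⟩
  obtain ⟨-, ⟨z, hz⟩, -⟩ := h2 K (le_trans le_sup_right hle) hK
  have hcard : Nat.card (Multiplicative (ZMod l)) = l :=
    (Nat.card_congr Multiplicative.toAdd).trans (Nat.card_zmod _)
  rw [hcard] at hz
  obtain ⟨Sl, hSl⟩ : ∃ Sl : Finset (Pl K), ∀ w, w ∈ Sl ↔ Above l w :=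
    ⟨(above_fin hl0).toFinset, fun w => by rw [Set.Finite.mem_toFinset]; rfl⟩
  obtain ⟨Q, S₀, Sb, c, Y₀, hc, h3, h4, h5, h6, h7⟩ := h K hK (le_trans le_sup_left hle)
    (s + (l * (Nat.card Gb * (s + 1)) + 1)) (S₁ ∪ Sl)
  obtain ⟨S', hS', hS'c⟩ := Finset.exists_subset_card_eq (s := Sb) (n := s) (by omega)
  have hdis := Finset.disjoint_left.1 h5
  have hnl : ∀ v ∈ Sb, ¬ Above l v := fun v hv h8 =>
    hdis hv (Finset.mem_union_right _ ((hSl v).2 h8))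
  have hsub : (Sb \ S') ∪ S' ⊆ Sb := by
    intro v hv
    rcases Finset.mem_union.1 hv with hv | hv
    · exact (Finset.mem_sdiff.1 hv).1
    · exact hS' hv
  have hcd : l * (Nat.card Gb * (S'.card + 1)) < (Sb \ S').card := by
    rw [Finset.card_sdiff_of_subset hS', h6, hS'c]
    omega
  refine ⟨Q, S₀, S', c, Y₀, hc, Finset.union_subset_left h3, hS'.trans h4,
    Finset.disjoint_left.2 fun v hv hv2 => hdis (hS' hv) (Finset.mem_union_left _ hv2), hS'c,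
    fun Y hY => ?_⟩
  obtain ⟨Rs, hRs, h8⟩ := h7 Y hY
  have hex : ∀ φb : Gal(QBar/K) →* Gb, ∃ φ : Gal(QBar/K) →* G, φb ∈ Rs →
      ∃ s : Gb →* G, (∀ x, π (s x) = x) ∧ FT φ ∧
      Function.Surjective φ ∧ (∀ σ, π (φ σ) = φb σ) ∧
      (∀ v ∈ S', ∀ σ ∈ dec (K := K) (Q.P v), φ σ = 1) ∧
      ∀ v, v ∉ Sb \ S' → ¬ Above l v → ∃ m ∈ π.ker, ∀ τ ∈ (Q.P v).inertia Gal(QBar/K),
        φ τ = m * s (φb τ) * m⁻¹ := by
    intro φb
    by_cases hφb : φb ∈ Rs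
    · obtain ⟨g1, g2, g3, g4⟩ := h8 φb hφb
      obtain ⟨φ, s, q1, q2⟩ := S K ⟨z, hz⟩ φb g2 g1 Q (Sb \ S') S'
        Finset.sdiff_disjoint (fun v hv => g3 v (hsub hv)) (fun v hv => hnl v (hsub hv)) hcd
      exact ⟨φ, fun _ => ⟨s, q1, q2⟩⟩
    · exact ⟨1, fun h => absurd h hφb⟩
  choose lf hlf using hex
  have hinj : Set.InjOn lf (Rs : Set (Gal(QBar/K) →* Gb)) := by
    intro θ₁ h9 θ₂ h10 he
    obtain ⟨s₁, -, -, -, q1, -⟩ := hlf θ₁ h9
    obtain ⟨s₂, -, -, -, q2, -⟩ := hlf θ₂ h10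
    refine MonoidHom.ext fun σ => ?_
    rw [← q1 σ, ← q2 σ, he]
  refine ⟨Rs.image lf, ?_, ?_⟩
  · rw [Finset.card_image_of_injOn hinj]
    exact hRs
  intro φ hφ
  obtain ⟨φb, hφb, rfl⟩ := Finset.mem_image.1 hφ
  obtain ⟨s, q1, q2, q3, q4, q5, q6⟩ := hlf φb hφb
  obtain ⟨g1, g2, g3, T, k, t1, t2, t3, t4⟩ := h8 φb hφb
  have hin : ∀ w, w ∉ S₀ → ∃ m ∈ π.ker, ∀ τ ∈ (Q.P w).inertia Gal(QBar/K),
      lf φb τ = m * s (φb τ) * m⁻¹ := fun w hw =>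
    q6 w (fun h9 => hw (h4 (Finset.mem_sdiff.1 h9).1)) fun h9 =>
      hw (h3 (Finset.mem_union_right _ ((hSl w).2 h9)))
  refine ⟨q2, q3, q5, T, k, t1, t2, fun v hv => ?_, fun v hv hv2 τ hτ => ?_⟩
  · obtain ⟨x, hx, hx2⟩ := t3 v hv
    obtain ⟨m, hm, h9⟩ := hin v (t1 v hv)
    refine ⟨m * s x * m⁻¹, ?_, fun τ hτ => ?_⟩
    · refine pk_map (f := (MulAut.conj m).toMonoidHom.comp s) ?_ hx
      intro y hy
      show m * s y * m⁻¹ ∈ C
      refine hcc _ (hC _ ?_ ?_) m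
      · rw [← map_pow, hCbp y hy, map_one]
      · rw [q1]
        exact hy
    · obtain ⟨j, hj⟩ := Subgroup.mem_zpowers_iff.1 (hx2 τ hτ)
      rw [h9 τ hτ, ← hj, map_zpow]
      exact ⟨j, conj_zpow⟩
  · obtain ⟨m, hm, h9⟩ := hin v hv
    rw [h9 τ hτ, t4 v hv hv2 τ hτ, map_one, mul_one, mul_inv_cancel]

/-- one step -/
theorem base_step (hst : STP) {p l N : ℕ} (hp : p.Prime) {G Gb : Type} [Group G] [Finite G]
    [Group Gb] {π : G →* Gb} (S : STEP l π) (C : Set G) (Cb : Set Gb) (hCb : Cb = π '' C)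
    (hCp : ∀ x ∈ C, x ^ p = 1) (hcc : ∀ x ∈ C, ∀ g : G, g * x * g⁻¹ ∈ C)
    (hty : l ≠ p ∨ ∀ x ∈ C, ∃ y ∈ π.ker, x * y * x⁻¹ ≠ y) (h : BASE Cb N) : BASE C N := by
  refine base_lift S.prime.pos (lft_step hst S) S.sur C Cb hCb hCp hcc ?_ h
  intro y hy h1
  rw [hCb] at h1
  obtain ⟨x, hx, hx2⟩ := h1
  have h2 : IsConj y x := by
    refine typ S hp (hCp x hx) hy ?_ (by rw [hx2])
    rcases hty with h3 | h3
    · exact Or.inl h3
    · exact Or.inr (h3 x hx)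
  obtain ⟨g, rfl⟩ := isConj_iff.1 h2.symm
  exact hcc x hx g

/-- isomorphic groups -/
theorem base_iso {p N : ℕ} {G Gb : Type} [Group G] [Finite G] [Group Gb] (e : G ≃* Gb)
    (C : Set G) (Cb : Set Gb) (hCb : Cb = e '' C) (hCp : ∀ x ∈ C, x ^ p = 1)
    (hcc : ∀ x ∈ C, ∀ g : G, g * x * g⁻¹ ∈ C) (h : BASE Cb N) : BASE C N := by
  refine base_lift one_pos (lft_iso e) e.surjective C Cb hCb hCp hcc ?_ h
  intro y _ h1
  rw [hCb] at h1
  obtain ⟨x, hx, hx2⟩ := h1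
  rw [← e.injective hx2]
  exact hx

end H35.SN
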