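import Pool.Agent.H35.SN.Bs

/-!
# [H35 SN CH] MP_b39724_nt, theorem LSN: chains of steps

* `CHN p C r l R`: normal subgroups `R 0 ≥ R 1 ≥ ⋯ ≥ R r = 1` of `G`; for `i < r` the map `G ⧸ R (i + 1) → G ⧸ R i` is a `STEP (l i)`, and `l i ≠ p` or no element of `C` centralises `R i ⧸ R (i + 1)`.
* `fth_chain`, `base_chain`: from `G ⧸ R 0` to `G`.
-/

set_option autoImplicit false

open scoped NumberField
open IsDedekindDomain H38.ML
open scoped Classical IsMulCommutative

noncomputable section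

namespace H35.SN

open H63.MA H88.LH H77.PC3

/-- a chain of steps -/
structure CHN (p : ℕ) {G : Type} [Group G] (C : Set G) (r : ℕ) (l : ℕ → ℕ)
    (R : ℕ → Subgroup G) [∀ i, (R i).Normal] : Prop where
  le : ∀ i, R (i + 1) ≤ R i
  bot : R r = ⊥
  stp : ∀ i < r, STEP (l i) (QuotientGroup.map (R (i + 1)) (R i) (MonoidHom.id G)
    (fun _ hx => le i hx))
  act : ∀ i < r, l i ≠ p ∨ ∀ x ∈ C, ∃ y ∈ R i, x * y * x⁻¹ * y⁻¹ ∉ R (i + 1)

variable {p : ℕ} {G : Type} [Group G] [Finite G] {C : Set G} {r : ℕ} {l : ℕ → ℕ}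
  {R : ℕ → Subgroup G} [hn : ∀ i, (R i).Normal]

/-- the map `G ⧸ R (i + 1) → G ⧸ R i` -/
def CHN.pi (h : CHN p C r l R) (i : ℕ) : G ⧸ R (i + 1) →* G ⧸ R i :=
  QuotientGroup.map (R (i + 1)) (R i) (MonoidHom.id G) (fun _ hx => h.le i hx)

omit [Finite G] in
theorem CHN.pi_mk (h : CHN p C r l R) (i : ℕ) (x : G) :
    h.pi i (QuotientGroup.mk' (R (i + 1)) x) = QuotientGroup.mk' (R i) x := rfl

omit [Finite G] in
theorem CHN.step (h : CHN p C r l R) {i : ℕ} (hi : i < r) : STEP (l i) (h.pi i) := h.stp i hi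

omit [Finite G] in
theorem CHN.tyq (h : CHN p C r l R) {i : ℕ} (hi : i < r) :
    l i ≠ p ∨ ∀ x ∈ C, ∃ y ∈ (h.pi i).ker, QuotientGroup.mk' (R (i + 1)) x * y *
      (QuotientGroup.mk' (R (i + 1)) x)⁻¹ ≠ y := by
  rcases h.act i hi with h1 | h1
  · exact Or.inl h1
  · refine Or.inr fun x hx => ?_
    obtain ⟨y, hy, hxy⟩ := h1 x hx
    refine ⟨QuotientGroup.mk' (R (i + 1)) y, ?_, fun h2 => hxy ?_⟩
    · rw [MonoidHom.mem_ker, h.pi_mk]
      exact (QuotientGroup.eq_one_iff y).2 hy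
    · rw [← QuotientGroup.eq_one_iff]
      have h3 : ((x * y * x⁻¹ * y⁻¹ : G) : G ⧸ R (i + 1)) = QuotientGroup.mk' (R (i + 1)) x *
          QuotientGroup.mk' (R (i + 1)) y * (QuotientGroup.mk' (R (i + 1)) x)⁻¹ *
          (QuotientGroup.mk' (R (i + 1)) y)⁻¹ := rfl
      rw [h3, h2, mul_inv_cancel]

/-- the last quotient -/
def CHN.eq (h : CHN p C r l R) : G ≃* G ⧸ R r :=
  MulEquiv.ofBijective (QuotientGroup.mk' (R r)) ⟨by
    rw [← MonoidHom.ker_eq_bot_iff, QuotientGroup.ker_mk', h.bot], QuotientGroup.mk'_surjective _⟩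

omit [Finite G] in
theorem CHN.eq_ap (h : CHN p C r l R) (x : G) : h.eq x = QuotientGroup.mk' (R r) x := rfl

theorem CHN.cb (h : CHN p C r l R) (hp : p.Prime) {N : ℕ} (c : CL p N G) (hc : ∀ j, c.g j ∈ C)
    (i : ℕ) (hi : i ≤ r) :
    ∃ cb : CL p N (G ⧸ R i), ∀ j, cb.g j = QuotientGroup.mk' (R i) (c.g j) := by
  obtain ⟨k, hk⟩ : ∃ k, k = r - i := ⟨_, rfl⟩
  induction k generalizing i with
  | zero =>
    obtain rfl : i = r := by omega
    refine ⟨⟨fun j => h.eq (c.g j), fun j => by rw [← map_pow, c.pow, map_one], fun j hj =>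
      c.ne j (h.eq.injective (hj.trans (map_one _).symm)), fun j j' hjj => c.uni j j' ?_⟩,
      fun j => rfl⟩
    obtain ⟨g, hg⟩ := isConj_iff.1 hjj
    refine isConj_iff.2 ⟨h.eq.symm g, h.eq.injective ?_⟩
    rw [map_mul, map_mul, map_inv, h.eq.apply_symm_apply]
    exact hg
  | succ k ih =>
    obtain ⟨cb, hcb⟩ := ih (i + 1) (by omega) (by omega)
    obtain ⟨cb', hcb'⟩ := clb (h.step (i := i) (by omega)) hp cb (by
      rcases h.tyq (i := i) (by omega) with h1 | h1
      · exact Or.inl h1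
      · refine Or.inr fun j => ?_
        rw [hcb]
        exact h1 _ (hc j))
    exact ⟨cb', fun j => by rw [hcb', hcb, h.pi_mk]⟩

omit [Finite G] in
/-- equal classes -/
theorem cl_ext {N : ℕ} {H : Type} [Group H] {c c' : CL p N H} (h : ∀ j, c.g j = c'.g j) :
    c = c' := by
  obtain ⟨g, a1, a2, a3⟩ := c
  obtain ⟨g', b1, b2, b3⟩ := c'
  obtain rfl : g = g' := funext h
  rfl

/-- chains over `F` -/
theorem fth_chain (hst : STP) (hp : p.Prime) (h : CHN p C r l R) {N : ℕ} (c : CL p N G)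
    (hc : ∀ j, c.g j ∈ C) (D : Subgroup G) [D.Normal] (hD : R 0 ≤ D)
    [inst : (D.map (QuotientGroup.mk' (R 0))).Normal]
    (hF : ∀ cb : CL p N (G ⧸ R 0), (∀ j, cb.g j = QuotientGroup.mk' (R 0) (c.g j)) →
      FTH (D.map (QuotientGroup.mk' (R 0))) cb) : FTH D c := by
  have hnm : ∀ i, (D.map (QuotientGroup.mk' (R i))).Normal := fun i =>
    Subgroup.Normal.map inferInstance _ (QuotientGroup.mk'_surjective _)
  have hle : ∀ i, R i ≤ D := by
    intro i
    induction i with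
    | zero => exact hD
    | succ i ih => exact (h.le i).trans ih
  have key : ∀ i ≤ r, ∀ cb : CL p N (G ⧸ R i),
      (∀ j, cb.g j = QuotientGroup.mk' (R i) (c.g j)) →
      FTH (D.map (QuotientGroup.mk' (R i))) cb := by
    intro i
    induction i with
    | zero => exact fun _ => hF
    | succ i ih =>
      intro hi cb' hcb'
      obtain ⟨cb, hcb⟩ := h.cb hp c hc i (by omega)
      refine fth_step hst hp (h.step (i := i) (by omega)) _ (D.map (QuotientGroup.mk' (R i))) ?_ ?_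
        cb' cb ?_ ?_ (ih (by omega) cb hcb)
      · rw [Subgroup.map_map]
        rfl
      · intro x hx
        obtain ⟨y, rfl⟩ := QuotientGroup.mk'_surjective _ x
        rw [MonoidHom.mem_ker, h.pi_mk] at hx
        exact ⟨y, hle i ((QuotientGroup.eq_one_iff y).1 hx), rfl⟩
      · intro j
        rw [hcb, hcb', h.pi_mk]
      · rcases h.tyq (i := i) (by omega) with h1 | h1
        · exact Or.inl h1
        · refine Or.inr fun j => ?_
          rw [hcb']
          exact h1 _ (hc j)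
  obtain ⟨cb, hcb⟩ := h.cb hp c hc r le_rfl
  exact fth_iso h.eq D (D.map (QuotientGroup.mk' (R r))) rfl c cb
    (fun j => (hcb j).trans (h.eq_ap _).symm) (key r le_rfl cb hcb)

/-- chains over `K` -/
theorem base_chain (hst : STP) (hp : p.Prime) (h : CHN p C r l R) {N : ℕ}
    (hCp : ∀ x ∈ C, x ^ p = 1) (hcc : ∀ x ∈ C, ∀ g : G, g * x * g⁻¹ ∈ C)
    (hB : BASE (QuotientGroup.mk' (R 0) '' C) N) : BASE C N := by
  have hcp : ∀ i, ∀ x ∈ QuotientGroup.mk' (R i) '' C, x ^ p = 1 := by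
    rintro i _ ⟨x, hx, rfl⟩
    rw [← map_pow, hCp x hx, map_one]
  have hcj : ∀ i, ∀ x ∈ QuotientGroup.mk' (R i) '' C, ∀ g : G ⧸ R i,
      g * x * g⁻¹ ∈ QuotientGroup.mk' (R i) '' C := by
    rintro i _ ⟨x, hx, rfl⟩ g
    obtain ⟨g, rfl⟩ := QuotientGroup.mk'_surjective _ g
    exact ⟨g * x * g⁻¹, hcc x hx g, by rw [map_mul, map_mul, map_inv]⟩
  have key : ∀ i ≤ r, BASE (QuotientGroup.mk' (R i) '' C) N := by
    intro i
    induction i with
    | zero => exact fun _ => hB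
    | succ i ih =>
      intro hi
      refine base_step hst hp (h.step (i := i) (by omega)) _ _ ?_ (hcp _) (hcj _) ?_ (ih (by omega))
      · rw [Set.image_image]
        rfl
      · rcases h.tyq (i := i) (by omega) with h1 | h1
        · exact Or.inl h1
        · refine Or.inr ?_
          rintro _ ⟨x, hx, rfl⟩
          exact h1 x hx
  exact base_iso h.eq C _ rfl hCp hcc (key r le_rfl)

end H35.SN
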