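import Pool.Agent.H35.SN.Sg
import Pool.Agent.H88.LH.Fth
import Pool.Agent.H88.LH.Spx

/-!
# [H35 SN FS] MP_b39724_nt, theorem LSN: one step over `F` (`fth_step`)

`π : M → Mb` with `STEP l π`, kernel inside `D`, the classes `cb` are the images of the classes `c`: `FTH` for `Mb`, `D.map π` implies `FTH` for `M`, `D` (`fth_step`). `fth_iso`: isomorphic groups.
-/

set_option autoImplicit false

open scoped NumberField
open IsDedekindDomain H38.ML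
open scoped Classical IsMulCommutative

noncomputable section

namespace H35.SN

open H63.MA H88.LH H77.PC3

/-- the places which divide `m` -/
theorem above_fin {K : Type} [Field K] [NumberField K] {m : ℕ} (hm : 0 < m) :
    {v : Pl K | Above m v}.Finite := by
  have h1 : (Ideal.span {((m : ℕ) : 𝓞 K)} : Ideal (𝓞 K)) ≠ 0 := by
    intro h
    rw [Ideal.zero_eq_bot, Ideal.span_singleton_eq_bot] at h
    exact hm.ne' (by exact_mod_cast h)
  refine (Ideal.finite_factors h1).subset fun v hv => ?_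
  show v.asIdeal ∣ Ideal.span {((m : ℕ) : 𝓞 K)}
  rw [Ideal.dvd_span_singleton]
  exact hv

theorem above_mul {K : Type} [Field K] [NumberField K] {m l : ℕ} {v : Pl K}
    (h : ¬ Above (m * l) v) : ¬ Above m v ∧ ¬ Above l v := by
  refine ⟨fun h1 => h ?_, fun h1 => h ?_⟩
  · show (((m * l : ℕ)) : 𝓞 K) ∈ v.asIdeal
    rw [Nat.cast_mul]
    exact Ideal.mul_mem_right _ _ h1
  · show (((m * l : ℕ)) : 𝓞 K) ∈ v.asIdeal
    rw [Nat.cast_mul]
    exact Ideal.mul_mem_left _ _ h1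

/-- the image of a subgroup where two homomorphisms are related -/
theorem map_rel {Γ G Gb : Type} [Group Γ] [Group G] [Group Gb] {I : Subgroup Γ} {θ : Γ →* G}
    {θb : Γ →* Gb} {s : Gb →* G} {m : G} (h : ∀ τ ∈ I, θ τ = m * s (θb τ) * m⁻¹) {x : Gb}
    (hx : I.map θb = Subgroup.zpowers x) : I.map θ = Subgroup.zpowers (m * s x * m⁻¹) := by
  have h1 : I.map θ = (I.map θb).map ((MulAut.conj m).toMonoidHom.comp s) := by
    rw [Subgroup.map_map]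
    ext y
    constructor
    · rintro ⟨τ, hτ, rfl⟩
      exact ⟨τ, hτ, (h τ hτ).symm⟩
    · rintro ⟨τ, hτ, rfl⟩
      exact ⟨τ, hτ, h τ hτ⟩
  rw [h1, hx, MonoidHom.map_zpowers]
  rfl

theorem fth_lift {p l N : ℕ} (hl0 : 0 < l) {M Mb : Type} [Group M] [Finite M]
    [Group Mb] {π : M →* Mb} (S : LFT l π) (hsur : Function.Surjective π) (D : Subgroup M)
    [D.Normal] (Db : Subgroup Mb) [Db.Normal] (hDb : Db = D.map π) (hD : π.ker ≤ D)
    (c : CL p N M) (cb : CL p N Mb) (hcb : ∀ i, cb.g i = π (c.g i))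
    (hty : ∀ i y, y ^ p = 1 → IsConj (π y) (π (c.g i)) → IsConj y (c.g i)) (h : FTH Db cb) :
    FTH D c := by
  have hfb : Finite Mb := Finite.of_surjective π hsur
  obtain ⟨mb, hmb, h⟩ := h
  refine ⟨mb * l, Nat.mul_pos hmb hl0, ?_⟩
  rintro F _ ⟨z, hz⟩ Θ hΘ hft Q S₁ S' hS' hal
  -- the homomorphism to `Db ⋊ Mb`
  obtain ⟨f₁, hf₁⟩ : ∃ f₁ : D →* Db, ∀ d, (f₁ d : Mb) = π d := by
    refine ⟨(π.comp D.subtype).codRestrict Db fun d => ?_, fun d => rfl⟩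
    rw [hDb]
    exact ⟨d, d.2, rfl⟩
  have hf₁s : Function.Surjective f₁ := by
    rintro ⟨y, hy⟩
    have h1 := hy
    rw [hDb] at h1
    obtain ⟨d, hd, hdy⟩ := h1
    exact ⟨⟨d, hd⟩, Subtype.ext ((hf₁ _).trans hdy)⟩
  obtain ⟨pm, hpm1, hpm2⟩ : ∃ pm : DM D →* DM Db, (∀ x, (pm x).left = f₁ x.left) ∧
      ∀ x, (pm x).right = π x.right := by
    refine ⟨SemidirectProduct.map f₁ π fun g => ?_, fun x => rfl, fun x => rfl⟩
    refine MonoidHom.ext fun d => Subtype.ext ?_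
    show (f₁ ((MulAut.conjNormal : M →* MulAut D) g d) : Mb) =
      (((MulAut.conjNormal : Mb →* MulAut Db) (π g) (f₁ d) : Db) : Mb)
    rw [hf₁, MulAut.conjNormal_apply, MulAut.conjNormal_apply, hf₁, map_mul, map_mul, map_inv]
  have hpms : Function.Surjective pm := by
    rintro ⟨a, b⟩
    obtain ⟨a, rfl⟩ := hf₁s a
    obtain ⟨b, rfl⟩ := hsur b
    exact ⟨⟨a, b⟩, SemidirectProduct.ext (hpm1 _) (hpm2 _)⟩
  obtain ⟨Θb, hΘb⟩ : ∃ Θb : Gal(QBar/F) →* DM Db, Θb = pm.comp Θ := ⟨_, rfl⟩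
  -- auxiliary places
  obtain ⟨Sl, hSl⟩ : ∃ Sl : Finset (Pl F), ∀ w, w ∈ Sl ↔ Above (mb * l) w :=
    ⟨(above_fin (Nat.mul_pos hmb hl0)).toFinset, fun w => by rw [Set.Finite.mem_toFinset]; rfl⟩
  obtain ⟨Sa, hSac, hSad, hSas⟩ := spx Θ hft (S₁ ∪ S' ∪ Sl)
    (l * (Nat.card Mb * (S'.card + 1)) + 1)
  have hSaΘ : ∀ w ∈ Sa, ∀ σ ∈ dec (K := F) (Q.P w), Θ σ = 1 := fun w hw =>
    hSas w hw _ (Q.prime w) (Q.under w)
  have hdis := Finset.disjoint_left.1 hSad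
  have hall : ∀ w ∈ S' ∪ Sa, ∀ σ ∈ dec (K := F) (Q.P w), Θ σ = 1 := by
    intro w hw
    rcases Finset.mem_union.1 hw with hw | hw
    · exact hS' w hw
    · exact hSaΘ w hw
  have hnot : ∀ w ∈ S' ∪ Sa, ¬ Above (mb * l) w := by
    intro w hw
    rcases Finset.mem_union.1 hw with hw | hw
    · exact hal w hw
    · exact fun h1 => hdis hw (Finset.mem_union_right _ ((hSl w).2 h1))
  have hz1 : ∃ z : F, IsPrimitiveRoot z mb :=
    ⟨z ^ l, hz.pow (Nat.mul_pos hmb hl0) (Nat.mul_comm _ _)⟩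
  have hz2 : ∃ z : F, IsPrimitiveRoot z l := ⟨z ^ mb, hz.pow (Nat.mul_pos hmb hl0) rfl⟩
  obtain ⟨S0, h1, h2, h3⟩ := h F hz1 Θb (by rw [hΘb]; exact hpms.comp hΘ)
    (by rw [hΘb]; exact ft_comp _ _ hft) Q (S₁ ∪ Sl) (S' ∪ Sa)
    (fun w hw σ hσ => by rw [hΘb, MonoidHom.comp_apply, hall w hw σ hσ, map_one])
    (fun w hw => (above_mul (hnot w hw)).1)
  refine ⟨S0, Finset.union_subset_left h1, Finset.union_subset_left h2, ?_⟩
  intro b β bl SK hb1 hb2 hb3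
  obtain ⟨C, Y₀, hC, h4⟩ := h3 b β bl SK hb1 hb2 hb3
  refine ⟨C, Y₀, hC, fun Y hY => ?_⟩
  obtain ⟨Rs, hRs, h5⟩ := h4 Y hY
  -- the lifts
  have hex : ∀ θb : Gal(QBar/F) →* Mb, ∃ θ : Gal(QBar/F) →* M, θb ∈ Rs →
      ∃ s : Mb →* M, (∀ x, π (s x) = x) ∧ FT θ ∧
      Function.Surjective θ ∧ (∀ σ, π (θ σ) = θb σ) ∧
      (∀ v ∈ S', ∀ σ ∈ dec (K := F) (Q.P v), θ σ = 1) ∧
      ∀ v, v ∉ Sa → ¬ Above l v → ∃ m ∈ π.ker, ∀ τ ∈ (Q.P v).inertia Gal(QBar/F),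
        θ τ = m * s (θb τ) * m⁻¹ := by
    intro θb
    by_cases hθb : θb ∈ Rs
    · obtain ⟨g1, g2, g3, g4, g5⟩ := h5 θb hθb
      obtain ⟨θ, s, q1, q2⟩ := S F hz2 θb g2 g1 Q Sa S'
        (Finset.disjoint_left.2 fun w hw hw2 => hdis hw
          (Finset.mem_union_left _ (Finset.mem_union_right _ hw2)))
        (fun v hv => g4 v (by rwa [Finset.union_comm] at hv))
        (fun v hv => (above_mul (hnot v (by rwa [Finset.union_comm] at hv))).2)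
        (by rw [hSac]; exact Nat.lt_succ_self _)
      exact ⟨θ, fun _ => ⟨s, q1, q2⟩⟩
    · exact ⟨1, fun h => absurd h hθb⟩
  choose lf hlf using hex
  have hinj : Set.InjOn lf (Rs : Set (Gal(QBar/F) →* Mb)) := by
    intro θ₁ h6 θ₂ h7 he
    obtain ⟨s₁, -, -, -, q1, -⟩ := hlf θ₁ h6
    obtain ⟨s₂, -, -, -, q2, -⟩ := hlf θ₂ h7
    refine MonoidHom.ext fun σ => ?_
    rw [← q1 σ, ← q2 σ, he]
  refine ⟨Rs.image lf, ?_, ?_⟩
  · rw [Finset.card_image_of_injOn hinj]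
    exact hRs
  intro θ hθ
  obtain ⟨θb, hθb, rfl⟩ := Finset.mem_image.1 hθ
  obtain ⟨s, q1, q2, q3, q4, q5, q6⟩ := hlf θb hθb
  obtain ⟨g1, g2, g3, g4, T, t1, t2, t3, t4, t5⟩ := h5 θb hθb
  -- inertia outside `S0`
  have hin : ∀ w, w ∉ S0 → ∃ m ∈ π.ker, ∀ τ ∈ (Q.P w).inertia Gal(QBar/F),
      lf θb τ = m * s (θb τ) * m⁻¹ := by
    intro w hw
    refine q6 w (fun h6 => hw (h2 (Finset.mem_union_right _ h6))) ?_
    intro h6
    refine hw (h1 (Finset.mem_union_right _ ((hSl w).2 ?_)))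
    show (((mb * l : ℕ)) : 𝓞 F) ∈ w.asIdeal
    rw [Nat.cast_mul]
    exact Ideal.mul_mem_left _ _ h6
  have hlab : ∀ w, w ∉ S0 → ∀ i : Fin N, (∃ x : Mb, IsConj x (cb.g i) ∧
      ((Q.P w).inertia Gal(QBar/F)).map θb = Subgroup.zpowers x) →
      ∃ x : M, IsConj x (c.g i) ∧
        ((Q.P w).inertia Gal(QBar/F)).map (lf θb) = Subgroup.zpowers x := by
    rintro w hw i ⟨x, hx, hx2⟩
    obtain ⟨m, hm, h6⟩ := hin w hw
    refine ⟨m * s x * m⁻¹, ?_, map_rel h6 hx2⟩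
    have hxp : x ^ p = 1 := by
      obtain ⟨g, rfl⟩ := isConj_iff.1 hx.symm
      rw [conj_pow, cb.pow, mul_one, mul_inv_cancel]
    refine hty i _ ?_ ?_
    · rw [conj_pow, ← map_pow, hxp, map_one, mul_one, mul_inv_cancel]
    · have h8 : π (m * s x * m⁻¹) = x := by
        rw [map_mul, map_mul, map_inv, MonoidHom.mem_ker.1 hm, q1, one_mul, inv_one, mul_one]
      rw [h8, ← hcb]
      exact hx
  refine ⟨q2, q3, fun σ => ?_, q5, T, t1, t2, fun w hw => ?_, fun w hw hw2 τ hτ => ?_, fun i => ?_⟩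
  · have h6 := g3 σ
    have hle : ∀ y ∈ Db, y ∈ D.map π := fun y hy => by rwa [hDb] at hy
    obtain ⟨d, hd, hd2⟩ := hle _ h6
    have h7 : π d = π (lf θb σ * (((SemidirectProduct.rightHom : DM D →* M).comp Θ) σ)⁻¹) := by
      rw [hd2, map_mul, map_inv, q4, hΘb]
      congr 2
      exact hpm2 _
    have h8 : lf θb σ * (((SemidirectProduct.rightHom : DM D →* M).comp Θ) σ)⁻¹ * d⁻¹ ∈ π.ker := by
      rw [MonoidHom.mem_ker, map_mul, map_inv, ← h7, mul_inv_cancel]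
    have h9 := D.mul_mem (hD h8) hd
    rwa [inv_mul_cancel_right] at h9
  · obtain ⟨i, x, hx, hx2⟩ := t3 w hw
    obtain ⟨x', hx', hx'2⟩ := hlab w (t1 w hw).1 i ⟨x, hx, hx2⟩
    exact ⟨i, x', hx', hx'2⟩
  · obtain ⟨m, hm, h6⟩ := hin w hw
    rw [h6 τ hτ, t4 w hw hw2 τ hτ, map_one, mul_one, mul_inv_cancel]
  · obtain ⟨w, hw, hw2, hw3, hw4⟩ := t5 i
    exact ⟨w, hw, hw2, hw3, hlab w (t1 w hw).1 i hw4⟩

/-- one step -/
theorem fth_step (hst : STP) {p l N : ℕ} (hp : p.Prime) {M Mb : Type} [Group M] [Finite M]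
    [Group Mb] {π : M →* Mb} (S : STEP l π) (D : Subgroup M) [D.Normal] (Db : Subgroup Mb)
    [Db.Normal] (hDb : Db = D.map π) (hD : π.ker ≤ D) (c : CL p N M) (cb : CL p N Mb)
    (hcb : ∀ i, cb.g i = π (c.g i))
    (hty : l ≠ p ∨ ∀ i, ∃ x ∈ π.ker, c.g i * x * (c.g i)⁻¹ ≠ x) (h : FTH Db cb) : FTH D c := by
  refine fth_lift S.prime.pos (lft_step hst S) S.sur D Db hDb hD c cb hcb ?_ h
  intro i y hy hyc
  refine typ S hp (c.pow i) hy ?_ hyc
  rcases hty with h7 | h7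
  · exact Or.inl h7
  · exact Or.inr (h7 i)

/-- isomorphic groups -/
theorem fth_iso {p N : ℕ} {M Mb : Type} [Group M] [Finite M] [Group Mb] (e : M ≃* Mb)
    (D : Subgroup M) [D.Normal] (Db : Subgroup Mb) [Db.Normal] (hDb : Db = D.map e.toMonoidHom)
    (c : CL p N M) (cb : CL p N Mb) (hcb : ∀ i, cb.g i = e (c.g i)) (h : FTH Db cb) :
    FTH D c := by
  refine fth_lift one_pos (lft_iso e) e.surjective D Db hDb ?_ c cb hcb ?_ h
  · intro x hx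
    have h1 : x = 1 := e.injective ((MonoidHom.mem_ker.1 hx).trans (map_one e).symm)
    rw [h1]
    exact D.one_mem
  · intro i y _ hyc
    obtain ⟨g, hg⟩ := isConj_iff.1 hyc
    refine isConj_iff.2 ⟨e.symm g, e.injective ?_⟩
    rw [map_mul, map_mul, map_inv, e.apply_symm_apply]
    exact hg

end H35.SN
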