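import Pool.Agent.H35.SN.Ty
import Pool.Agent.H38.ML.Factor

/-!
# [H35 SN SG] MP_b39724_nt, theorem LSN: the step theorem for `π : G → Gb`

`stepG`: from `STP`: a surjective `φ : Γ → Gb`, trivial on the decomposition groups at `S'` and `S''`, `l * #Gb * (#S'' + 1) < #S'`, lifts to a surjective `φ' : Γ → G`, trivial on the decomposition groups at `S''`, conjugate
to `s φ` on the inertia groups at `v ∤ l`, `v ∉ S'`.
-/

set_option autoImplicit false

open scoped NumberField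
open IsDedekindDomain H38.ML
open scoped Classical IsMulCommutative

noncomputable section

namespace H35.SN

open H63.MA H88.LH

theorem stepG (hst : STP) {K : IntermediateField ℚ QBar} [NumberField K] {l : ℕ}
    (hζ : ∃ z : K, IsPrimitiveRoot z l) {G Gb : Type} [Group G] [Finite G] [Group Gb]
    {π : G →* Gb} (S : STEP l π) (φ : Gal(QBar/K) →* Gb) (hs : Function.Surjective φ)
    (hφ : FT φ) (Q : DP K QBar) (S' S'' : Finset (Pl K)) (hd : Disjoint S' S'')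
    (hsp : ∀ v ∈ S' ∪ S'', ∀ σ ∈ dec (K := K) (Q.P v), φ σ = 1)
    (hal : ∀ v ∈ S' ∪ S'', ¬ Above l v) (hc : l * (Nat.card Gb * (S''.card + 1)) < S'.card) :
    ∃ (φ' : Gal(QBar/K) →* G) (s : Gb →* G), (∀ x, π (s x) = x) ∧ FT φ' ∧
      Function.Surjective φ' ∧ (∀ σ, π (φ' σ) = φ σ) ∧
      (∀ v ∈ S'', ∀ σ ∈ dec (K := K) (Q.P v), φ' σ = 1) ∧
      ∀ v, v ∉ S' → ¬ Above l v → ∃ m ∈ π.ker, ∀ τ ∈ (Q.P v).inertia Gal(QBar/K),
        φ' τ = m * s (φ τ) * m⁻¹ := by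
  have := S.com
  have hfb : Finite Gb := Finite.of_surjective π S.sur
  obtain ⟨s, hsec⟩ := S.sec
  obtain ⟨act, hact⟩ : ∃ act : Gb →* MulAut π.ker,
      act = (MulAut.conjNormal : G →* MulAut π.ker).comp s := ⟨_, rfl⟩
  have hap : ∀ (h : Gb) (x : π.ker), ((act h x : π.ker) : G) = s h * x * (s h)⁻¹ := by
    intro h x
    rw [hact]
    show (((MulAut.conjNormal : G →* MulAut π.ker) (s h) x : π.ker) : G) = _
    rw [MulAut.conjNormal_apply]
  -- every element is `r * s (π g)`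
  have hdec : ∀ g : G, g * (s (π g))⁻¹ ∈ π.ker := fun g => by
    rw [MonoidHom.mem_ker, map_mul, map_inv, hsec, mul_inv_cancel]
  have hcj : ∀ (g : G) (x : π.ker), g * x * g⁻¹ = s (π g) * x * (s (π g))⁻¹ := by
    intro g x
    obtain ⟨r, hr⟩ : ∃ r : π.ker, (r : G) = g * (s (π g))⁻¹ := ⟨⟨_, hdec g⟩, rfl⟩
    have h1 := congrArg Subtype.val (mul_comm r (act (π g) x))
    rw [Subgroup.coe_mul, Subgroup.coe_mul, hap] at h1
    have h2 : g = r * s (π g) := by rw [hr, inv_mul_cancel_right]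
    conv_lhs => rw [h2]
    calc (r : G) * s (π g) * x * (r * s (π g))⁻¹
        = (r * (s (π g) * x * (s (π g))⁻¹)) * (r : G)⁻¹ := by group
      _ = _ := by rw [h1, mul_inv_cancel_right]
  have hr : act.range = (MulAut.conjNormal : G →* MulAut π.ker).range := by
    ext a
    constructor
    · rintro ⟨h, rfl⟩
      exact ⟨s h, by rw [hact]; rfl⟩
    · rintro ⟨g, rfl⟩
      refine ⟨π g, ?_⟩
      refine MulEquiv.ext fun x => Subtype.ext ?_
      rw [hap, MulAut.conjNormal_apply]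
      exact (hcj g x).symm
  have hnt : Nontrivial π.ker := (Subgroup.nontrivial_iff_ne_bot _).2 S.ne
  have hig : ∃ θ : π.ker →* π.ker, ∀ x, ∏ᶠ a : act.range,
      (a : MulAut π.ker) (θ ((a : MulAut π.ker)⁻¹ x)) = x := by
    rw [hr]
    exact S.hig
  have hirr : ∀ U : Subgroup π.ker, (∀ h, ∀ u ∈ U, act h u ∈ U) → U = ⊥ ∨ U = ⊤ := by
    intro U hU
    have h1 : (U.map π.ker.subtype).Normal := by
      refine ⟨?_⟩
      rintro _ ⟨u, hu, rfl⟩ g
      refine ⟨act (π g) u, hU _ _ hu, ?_⟩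
      show ((act (π g) u : π.ker) : G) = _
      rw [hap]
      exact (hcj g u).symm
    rcases S.irr _ h1 (Subgroup.map_subtype_le U) with h | h
    · left
      exact (Subgroup.map_eq_bot_iff_of_injective U (Subgroup.subtype_injective _)).1 h
    · right
      rw [eq_top_iff]
      intro x _
      have h2 : (x : G) ∈ U.map π.ker.subtype := by
        rw [h]
        exact x.2
      obtain ⟨u, hu, hux⟩ := h2
      have h3 : u = x := Subtype.ext hux
      rwa [← h3]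
  obtain ⟨κ, k1, ⟨E, hE, k2⟩, k3, k4, k5⟩ := hst K l S.prime hζ Gb π.ker
    (fun x => Subtype.ext (S.exp x x.2)) hnt act hirr hig φ hs hφ Q S' S'' hd hsp hal hc
  have hκ1 : κ 1 = 1 := by
    have h1 := k1 1 1
    rw [mul_one, map_one, map_one] at h1
    exact (mul_eq_left.1 h1.symm)
  obtain ⟨φ', hφ'⟩ : ∃ φ' : Gal(QBar/K) →* G, ∀ σ, φ' σ = κ σ * s (φ σ) := by
    refine ⟨MonoidHom.mk' (fun σ => (κ σ : G) * s (φ σ)) fun σ τ => ?_, fun σ => rfl⟩
    rw [k1, Subgroup.coe_mul, hap, map_mul, map_mul]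
    group
  refine ⟨φ', s, hsec, ?_, ?_, fun σ => ?_, fun v hv σ hσ => ?_, fun v hv hv2 => ?_⟩
  · obtain ⟨E', hE', h2⟩ := hφ
    refine ⟨E ⊔ E', inferInstance, fun σ hσ => ?_⟩
    have h3 : κ σ = 1 := k2 σ (IntermediateField.fixingSubgroup_antitone le_sup_left hσ)
    have h4 : φ σ = 1 := h2 (IntermediateField.fixingSubgroup_antitone le_sup_right hσ)
    rw [MonoidHom.mem_ker, hφ', h3, h4, map_one, mul_one]
    rfl
  · intro g
    obtain ⟨σ, hσ⟩ := hs (π g)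
    obtain ⟨τ, hτ, hτ2⟩ := k3 (⟨_, hdec g⟩ * (κ σ)⁻¹)
    refine ⟨τ * σ, ?_⟩
    rw [hφ', k1, hτ2, map_mul, hτ, map_one, one_mul, hσ]
    have h1 : (⟨g * (s (π g))⁻¹, hdec g⟩ : π.ker) * (κ σ)⁻¹ * (1 : MulAut π.ker) (κ σ) =
        ⟨g * (s (π g))⁻¹, hdec g⟩ := inv_mul_cancel_right _ _
    rw [h1]
    show g * (s (π g))⁻¹ * s (π g) = g
    rw [inv_mul_cancel_right]
  · rw [hφ', map_mul, hsec]
    have h1 : π (κ σ : G) = 1 := (κ σ).2
    rw [h1, one_mul]
  · rw [hφ', k4 v hv σ hσ, hsp v (Finset.mem_union_right _ hv) σ hσ, map_one, mul_one]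
    rfl
  · obtain ⟨x, hx⟩ := k5 v hv hv2
    refine ⟨x, x.2, fun τ hτ => ?_⟩
    rw [hφ', hx τ hτ, Subgroup.coe_div, hap, div_eq_mul_inv]
    group

/-- homomorphisms lift along `π` -/
def LFT (l : ℕ) {G Gb : Type} [Group G] [Group Gb] (π : G →* Gb) : Prop :=
  ∀ (K : IntermediateField ℚ QBar) [NumberField K] (_ : ∃ z : K, IsPrimitiveRoot z l)
    (φ : Gal(QBar/K) →* Gb) (_ : Function.Surjective φ) (_ : FT φ) (Q : DP K QBar)
    (S' S'' : Finset (Pl K)) (_ : Disjoint S' S'')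
    (_ : ∀ v ∈ S' ∪ S'', ∀ σ ∈ dec (K := K) (Q.P v), φ σ = 1)
    (_ : ∀ v ∈ S' ∪ S'', ¬ Above l v) (_ : l * (Nat.card Gb * (S''.card + 1)) < S'.card),
    ∃ (φ' : Gal(QBar/K) →* G) (s : Gb →* G), (∀ x, π (s x) = x) ∧ FT φ' ∧
      Function.Surjective φ' ∧ (∀ σ, π (φ' σ) = φ σ) ∧
      (∀ v ∈ S'', ∀ σ ∈ dec (K := K) (Q.P v), φ' σ = 1) ∧
      ∀ v, v ∉ S' → ¬ Above l v → ∃ m ∈ π.ker, ∀ τ ∈ (Q.P v).inertia Gal(QBar/K),
        φ' τ = m * s (φ τ) * m⁻¹

theorem lft_step (hst : STP) {l : ℕ} {G Gb : Type} [Group G] [Finite G] [Group Gb]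
    {π : G →* Gb} (S : STEP l π) : LFT l π := fun _ _ hζ φ hs hφ Q S' S'' hd hsp hal hc =>
  stepG hst hζ S φ hs hφ Q S' S'' hd hsp hal hc

theorem lft_iso {G Gb : Type} [Group G] [Group Gb] (e : G ≃* Gb) : LFT 1 e.toMonoidHom := by
  intro K _ _ φ hs hφ Q S' S'' hd hsp hal hc
  refine ⟨e.symm.toMonoidHom.comp φ, e.symm.toMonoidHom, fun x => e.apply_symm_apply x,
    ft_comp _ _ hφ, e.symm.surjective.comp hs, fun σ => e.apply_symm_apply _, fun v hv σ hσ => ?_,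
    fun v _ _ => ⟨1, one_mem _, fun τ _ => ?_⟩⟩
  · rw [MonoidHom.comp_apply, hsp v (Finset.mem_union_right _ hv) σ hσ, map_one]
  · rw [one_mul, inv_one, mul_one]
    rfl

end H35.SN
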