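import Pool.Agent.H35.SN.Defs
import Pool.Agent.H35.SN.Cob

/-!
# [H35 SN TY] MP_b39724_nt, theorem LSN: elements of order `p` in a coset of the kernel

* `typ`: `c ^ p = y ^ p = 1`, `π y` conjugate to `π c`, and `l ≠ p` or `c` does not centralise the kernel: then `y` is conjugate to `c`.
* `clb`: the images of the classes.
-/

set_option autoImplicit false

open scoped Classical IsMulCommutative

noncomputable section

namespace H35.SN

open H77.PC3

theorem typ {l p : ℕ} {G Gb : Type} [Group G] [Finite G] [Group Gb] {π : G →* Gb} (S : STEP l π)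
    (hp : p.Prime) {c y : G} (hc : c ^ p = 1) (hy : y ^ p = 1)
    (h : l ≠ p ∨ ∃ x ∈ π.ker, c * x * c⁻¹ ≠ x) (hxy : IsConj (π y) (π c)) : IsConj y c := by
  have := S.com
  obtain ⟨gb, hgb⟩ := isConj_iff.1 hxy
  obtain ⟨g, rfl⟩ := S.sur gb
  obtain ⟨y', hy'⟩ : ∃ y', y' = g * y * g⁻¹ := ⟨_, rfl⟩
  have hyy : IsConj y y' := isConj_iff.2 ⟨g, hy'.symm⟩
  have hπ : π y' = π c := by
    rw [hy', map_mul, map_mul, map_inv, hgb]
  have hyp : y' ^ p = 1 := by
    rw [hy', conj_pow, hy, mul_one, mul_inv_cancel]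
  refine hyy.trans ?_
  -- the group generated by `(c, y')`
  obtain ⟨u, hu⟩ : ∃ u : G × G, u = (c, y') := ⟨_, rfl⟩
  have hup : u ^ p = 1 := by
    rw [hu]
    exact Prod.ext hc hyp
  have hI : ∀ i ∈ Subgroup.zpowers u, i.2 * i.1⁻¹ ∈ π.ker := by
    rintro _ ⟨j, rfl⟩
    simp only
    rw [hu, MonoidHom.mem_ker, map_mul, map_inv]
    show π (y' ^ j) * (π (c ^ j))⁻¹ = 1
    rw [map_zpow, map_zpow, hπ, mul_inv_cancel]
  obtain ⟨f, hf⟩ : ∃ f : Subgroup.zpowers u → π.ker, ∀ i, (f i : G) = (i : G × G).2 * (i : G × G).1⁻¹ :=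
    ⟨fun i => ⟨_, hI i i.2⟩, fun i => rfl⟩
  obtain ⟨β, hβ⟩ : ∃ β : Subgroup.zpowers u →* MulAut π.ker, ∀ i (x : π.ker),
      ((β i x : π.ker) : G) = (i : G × G).1 * x * (i : G × G).1⁻¹ := by
    refine ⟨(MulAut.conjNormal : G →* MulAut π.ker).comp ((MonoidHom.fst G G).comp
      (Subgroup.zpowers u).subtype), fun i x => ?_⟩
    show (((MulAut.conjNormal : G →* MulAut π.ker) (i : G × G).1 x : π.ker) : G) = _
    rw [MulAut.conjNormal_apply]
  have hcoc : ∀ i j, f (i * j) = f i * β i (f j) := by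
    intro i j
    apply Subtype.ext
    rw [Subgroup.coe_mul, hf, hf, hβ, hf, Subgroup.coe_mul, Prod.snd_mul, Prod.fst_mul]
    group
  have key : ∃ x : π.ker, ∀ i, f i = x / β i x := by
    by_cases hlp : l = p
    · obtain ⟨x₀, hx₀, hcx⟩ : ∃ x ∈ π.ker, c * x * c⁻¹ ≠ x := by
        rcases h with h | h
        · exact absurd hlp h
        · exact h
      obtain ⟨θ, hθ⟩ := S.hig
      refine cob (MulAut.conjNormal : G →* MulAut π.ker).range θ hθ β ?_ f hcoc ?_
      · intro i
        refine ⟨(i : G × G).1, ?_⟩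
        refine MulEquiv.ext fun x => Subtype.ext ?_
        rw [hβ, MulAut.conjNormal_apply]
      · rintro ⟨_, j, rfl⟩ hi
        have h1 : c ^ j * x₀ * (c ^ j)⁻¹ = x₀ := by
          have h2 := hβ ⟨(fun x : ℤ => u ^ x) j, ⟨j, rfl⟩⟩ ⟨x₀, hx₀⟩
          rw [hi] at h2
          have h3 : ((u ^ j : G × G)).1 = c ^ j := by rw [hu]; rfl
          simp only [h3] at h2
          exact h2.symm
        have h4 : (p : ℤ) ∣ j := by
          by_contra hnd
          -- `c` is a power of `c ^ j`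
          have hco : IsCoprime (p : ℤ) j :=
            (Prime.coprime_iff_not_dvd (Nat.prime_iff_prime_int.1 hp)).2 hnd
          obtain ⟨a, b, hab⟩ := hco
          have h5 : c = (c ^ j) ^ b := by
            have h6 : c ^ (a * (p : ℤ) + b * j) = c := by rw [hab, zpow_one]
            rw [zpow_add, mul_comm a, zpow_mul, zpow_natCast, hc, one_zpow, one_mul, mul_comm,
              zpow_mul] at h6
            exact h6.symm
          have h7 : Commute (c ^ j) x₀ := by
            have h8 : c ^ j * x₀ = x₀ * c ^ j := mul_inv_eq_iff_eq_mul.1 h1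
            exact h8
          have h9 : Commute c x₀ := by
            rw [h5]
            exact h7.zpow_left b
          exact hcx (by rw [h9.eq, mul_inv_cancel_right])
        obtain ⟨k, rfl⟩ := h4
        apply Subtype.ext
        rw [hf]
        have h10 : u ^ ((p : ℤ) * k) = 1 := by rw [zpow_mul, zpow_natCast, hup, one_zpow]
        show (u ^ ((p : ℤ) * k)).2 * (u ^ ((p : ℤ) * k)).1⁻¹ = 1
        rw [h10]
        simp
    · refine cobc (l := l) (fun x => Subtype.ext (S.exp x x.2)) ?_ β f hcoc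
      have h1 : Nat.card (Subgroup.zpowers u) ∣ p := by
        rw [Nat.card_zpowers]
        exact orderOf_dvd_of_pow_eq_one hup
      exact Nat.Coprime.coprime_dvd_right h1 ((Nat.coprime_primes S.prime hp).2 hlp)
  obtain ⟨x, hx⟩ := key
  have h1 := congrArg Subtype.val (hx ⟨u, Subgroup.mem_zpowers u⟩)
  have h2 : (((x / β ⟨u, Subgroup.mem_zpowers u⟩ x : π.ker)) : G) = x * (c * x * c⁻¹)⁻¹ := by
    rw [Subgroup.coe_div, hβ, div_eq_mul_inv, hu]
  rw [hf, h2, hu] at h1
  simp only at h1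
  refine (isConj_iff.2 ⟨x, ?_⟩ : IsConj c y').symm
  have h3 : y' = x * (c * x * c⁻¹)⁻¹ * c := by
    rw [← h1, inv_mul_cancel_right]
  rw [h3]
  group

/-- the images of the classes -/
theorem clb {l p N : ℕ} {G Gb : Type} [Group G] [Finite G] [Group Gb] {π : G →* Gb}
    (S : STEP l π) (hp : p.Prime) (c : CL p N G)
    (h : l ≠ p ∨ ∀ i, ∃ x ∈ π.ker, c.g i * x * (c.g i)⁻¹ ≠ x) :
    ∃ cb : CL p N Gb, ∀ i, cb.g i = π (c.g i) := by
  have := S.com
  refine ⟨⟨fun i => π (c.g i), fun i => by rw [← map_pow, c.pow, map_one], fun i hi => ?_,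
    fun i j hij => ?_⟩, fun i => rfl⟩
  · -- `c.g i` in the kernel
    have hk : c.g i ∈ π.ker := hi
    rcases h with h | h
    · have h1 := S.exp _ hk
      have h2 := c.pow i
      have h3 : orderOf (c.g i) ∣ Nat.gcd l p :=
        Nat.dvd_gcd (orderOf_dvd_of_pow_eq_one h1) (orderOf_dvd_of_pow_eq_one h2)
      rw [(Nat.coprime_primes S.prime hp).2 h] at h3
      exact c.ne i (orderOf_eq_one_iff.1 (Nat.dvd_one.1 h3))
    · obtain ⟨x, hx, hne⟩ := h i
      refine hne ?_
      have h1 := mul_comm (⟨c.g i, hk⟩ : π.ker) ⟨x, hx⟩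
      have h2 : c.g i * x = x * c.g i := congrArg Subtype.val h1
      rw [h2, mul_inv_cancel_right]
  · refine c.uni i j (typ S hp (c.pow j) (c.pow i) ?_ hij)
    rcases h with h | h
    · exact Or.inl h
    · exact Or.inr (h j)

end H35.SN
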